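import Pool.Agent.X250.AffNil

/-!
# MP_27f3b7_al, Q1: affine maps of finite nilpotent groups have a cycle of full length
-/

set_option autoImplicit false

namespace Pool.Agent.Results.MP_27f3b7_al.FullCycle

/-- The affine map `x ↦ t α(x)` of the group `G`, as a permutation of `G`. -/
def affineMap {G : Type} [Group G] (t : G) (α : MulAut G) : Equiv.Perm G :=
  α.toEquiv.trans (Equiv.mulLeft t)

/-- **Positive answer to Q1.**  For every affine map `A(x) = t α(x)` of a finite nilpotent group
some point lies on a cycle of `A` of length `ord(A)`. -/
theorem result : ∀ (G : Type) [Group G] [Finite G] [Group.IsNilpotent G] (t : G) (α : MulAut G),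
    ∃ x : G, Function.minimalPeriod (affineMap t α) x = orderOf (affineMap t α) :=
  fun G _ _ _ t α => Pool.Agent.X250.AffNil.exists_full_cycle G t α

end Pool.Agent.Results.MP_27f3b7_al.FullCycle
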